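import Mathlib

set_option autoImplicit false
open MeasureTheory Filter Topology Complex
open scoped InnerProductSpace

namespace Pool.Agent.H.MP_e616d8_an

abbrev Ω := ℕ → ZMod 2
noncomputable def μ : Measure Ω := Measure.addHaarMeasure ⊤
instance : IsProbabilityMeasure μ := ⟨Measure.addHaarMeasure_self (K₀ := ⊤)⟩
instance : μ.IsAddHaarMeasure := Measure.isAddHaarMeasure_addHaarMeasure _
instance : Fact ((2 : ENNReal) ≠ ⊤) := ⟨by simp⟩
noncomputable abbrev E := Lp ℂ 2 μ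

theorem exM {g : Ω → ℂ} (hg : Measurable g) (hb : ∀ᵐ ω ∂μ, ‖g ω‖ ≤ 1) :
    ∃ M : E →L[ℂ] E, ∀ f, M f =ᵐ[μ] fun ω => g ω * f ω :=
  ⟨(ContinuousLinearMap.mul ℂ ℂ).holderL μ ⊤ 2 2 (memLp_top_of_bound hg.aestronglyMeasurable 1 hb).toLp,
    fun f => by
      filter_upwards [(ContinuousLinearMap.mul ℂ ℂ).coeFn_holder (r := 2)
        (memLp_top_of_bound hg.aestronglyMeasurable 1 hb).toLp f,
        (memLp_top_of_bound hg.aestronglyMeasurable 1 hb).coeFn_toLp] with ω a b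
      rw [← b]; exact a⟩

theorem wnull {e : ℕ → E} (he : Orthonormal ℂ e) (φ : E →L[ℂ] ℂ) : Tendsto (fun j => φ (e j)) atTop (𝓝 0) := by
  obtain ⟨f, rfl⟩ := (InnerProductSpace.toDual ℂ E).surjective φ
  have := (he.inner_products_summable f).tendsto_atTop_zero.sqrt
  simpa [tendsto_zero_iff_norm_tendsto_zero (E := ℂ), norm_inner_symm f] using this

theorem wk {s : ℕ → E} {y : E} :
    Tendsto (fun k => toWeakSpace ℂ E (s k)) atTop (𝓝 (toWeakSpace ℂ E y)) ↔
      ∀ φ : E →L[ℂ] ℂ, Tendsto (fun k => φ (s k)) atTop (𝓝 (φ y)) :=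
  (IsInducing.induced (fun (x : WeakSpace ℂ E) (φ : E →L[ℂ] ℂ) =>
    (topDualPairing ℂ E).flip x φ)).tendsto_nhds_iff.trans tendsto_pi_nhds

theorem exr : ∃ r : ℕ → E, Orthonormal ℂ r ∧ ∀ j, ∀ᵐ ω ∂μ, r j ω = 1 ∨ r j ω = -1 := by
  let χ (t : ZMod 2) : ℂ := if t = 0 then 1 else -1
  have m (j : ℕ) : MemLp (fun ω : Ω => χ (ω j)) 2 μ := .of_bound
    ((measurable_from_top (f := χ)).comp (measurable_pi_apply j)).aestronglyMeasurable 1
    (.of_forall fun ω => by unfold χ; split_ifs <;> simp)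
  refine ⟨fun j => (m j).toLp, orthonormal_iff_ite.2 fun i j => ?_, fun j => by
    filter_upwards [(m j).coeFn_toLp] with ω a; rw [a]; unfold χ; split_ifs <;> simp⟩
  rw [L2.inner_def, integral_congr_ae (g := fun ω => χ (ω j) * χ (ω i)) (by
    filter_upwards [(m i).coeFn_toLp, (m j).coeFn_toLp] with ω a b
    rw [a, b]; unfold χ; split_ifs <;> simp)]
  split_ifs with e
  · rw [e, integral_congr_ae (g := fun _ => 1) (.of_forall fun ω => by unfold χ; split_ifs <;> simp)]; simp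
  · refine integral_eq_zero_of_add_left_eq_neg (g := Pi.single i 1) fun ω => ?_
    have : ∀ t : ZMod 2, χ (1 + t) = -χ t := fun t => by
      have : ∀ t : ZMod 2, 1 + t = 0 ↔ t ≠ 0 := by decide
      by_cases h : t = 0 <;> simp [χ, this, h]
    simp [Pi.single_eq_of_ne' e, this]

theorem exe : ∃ e : ℕ → E, Orthonormal ℂ e ∧ ∀ j, ∀ᵐ ω ∂μ, e j ω = ‖e j ω‖ := by
  let B (k : ℕ) : Set Ω := Set.pi (Set.Iic k) fun j => {if j = k then 1 else 0}
  have o (k : ℕ) : IsOpen (B k) := isOpen_set_pi (Set.finite_Iic k) fun _ _ => isOpen_discrete _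
  have p (k : ℕ) : 0 < μ.real (B k) := ENNReal.toReal_pos
    ((o k).measure_pos μ ⟨fun j => if j = k then 1 else 0, fun _ _ => rfl⟩).ne' (measure_ne_top _ _)
  have d {i j : ℕ} (h : i < j) : B i ∩ B j = ∅ := Set.eq_empty_of_forall_notMem fun ω c => by
    have a := c.1 i Set.self_mem_Iic; have b := c.2 i h.le
    simp [h.ne] at a b; simp [a] at b
  refine ⟨fun k => indicatorConstLp 2 (o k).measurableSet (measure_ne_top _ _) ((√(μ.real (B k)))⁻¹ : ℝ),
    orthonormal_iff_ite.2 fun i j => ?_, fun k => (indicatorConstLp_coeFn (p := 2) (hs := (o k).measurableSet) (hμs := measure_ne_top μ _)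
      (c := (((√(μ.real (B k)))⁻¹ : ℝ) : ℂ))).mono fun ω a => ?_⟩
  · rw [L2.inner_indicatorConstLp_indicatorConstLp]
    rcases lt_trichotomy i j with h | rfl | h
    · simp [d h, h.ne]
    · simp only [Set.inter_self, RCLike.inner_apply, conj_ofReal, if_true, real_smul]
      norm_cast
      rw [← mul_inv, Real.mul_self_sqrt (p i).le, mul_inv_cancel₀ (p i).ne']
    · simp [Set.inter_comm (B i), d h, h.ne']
  · rw [a]; by_cases c : ω ∈ B k <;> simp [c, abs_of_nonneg (Real.sqrt_nonneg _)]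

theorem exh {u : ℕ → Ω → ℂ} (m : ∀ k, Measurable (u k)) : ∃ h : Ω → ℂ, Measurable h ∧ (∀ ω, ‖h ω‖ = 1) ∧
    ∀ k ω, ‖u k ω‖ = 1 → ‖h ω ^ 2 ^ k ^ 2 - u k ω‖ ≤ 4 / 2 ^ k := by
  let φ : ℕ → Ω → ℝ := Nat.rec 0 fun k f ω => f ω + arg (u k ω * exp (-(I * (2 ^ k ^ 2 * f ω : ℝ)))) / 2 ^ k ^ 2
  have s k ω : φ (k + 1) ω = φ k ω + arg (u k ω * exp (-(I * (2 ^ k ^ 2 * φ k ω : ℝ)))) / 2 ^ k ^ 2 := rfl
  have mφ k : Measurable (φ k) := by
    induction k with
    | zero => exact measurable_const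
    | succ k ih => have := m k; rw [funext (s k)]; fun_prop
  have d k ω : dist (φ k ω) (φ (k + 1) ω) ≤ 4 / 2 ^ k ^ 2 := by
    rw [s, dist_self_add_right, norm_div, Real.norm_of_nonneg (by positivity : (0 : ℝ) ≤ 2 ^ k ^ 2)]
    gcongr
    exact (abs_arg_le_pi _).trans Real.pi_le_four
  choose Φ hΦ using fun ω => cauchySeq_tendsto_of_complete (cauchySeq_of_le_geometric_two (C := 8)
    fun k => (d k ω).trans (by
      rw [show (8 : ℝ) / 2 = 4 by norm_num]; gcongr; exacts [one_le_two, Nat.le_self_pow two_ne_zero k]))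
  have := measurable_of_tendsto_metrizable mφ (tendsto_pi_nhds.2 hΦ)
  refine ⟨fun ω => exp (I * Φ ω), by fun_prop, fun ω => norm_exp_I_mul_ofReal _, fun k ω e => ?_⟩
  have a := dist_le_of_le_geometric_two_of_tendsto₀ (f := fun i => φ (i + (k + 1)) ω)
    (C := 4 / 2 ^ k / 2 ^ k ^ 2) (fun i => by
      rw [Nat.add_right_comm i 1]
      refine (d (i + (k + 1)) ω).trans ?_
      rw [div_div, div_div, div_div, ← pow_succ', ← pow_add, ← pow_add]
      gcongr; exacts [one_le_two, by nlinarith]) ((hΦ ω).comp (tendsto_add_atTop_nat (k + 1)))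
  rw [zero_add, le_div_iff₀ (by positivity), dist_comm, Real.dist_eq] at a
  have b := norm_mul_exp_arg_mul_I (u k ω * exp (-(I * (2 ^ k ^ 2 * φ k ω : ℝ))))
  rw [norm_mul, e, ← mul_neg, ← ofReal_neg, norm_exp_I_mul_ofReal, ofReal_neg, mul_neg] at b
  have c : exp (I * Φ ω) ^ 2 ^ k ^ 2 - u k ω =
      u k ω * (exp (I * ((Φ ω - φ (k + 1) ω) * 2 ^ k ^ 2 : ℝ)) - 1) := by
    rw [exp_neg, ← div_eq_mul_inv (u k ω), eq_div_iff (exp_ne_zero _), div_eq_mul_inv, ← exp_neg] at b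
    rw [mul_sub, mul_one, ← exp_nat_mul]
    nth_rewrite 2 [← b]
    rw [mul_one, ofReal_one, one_mul, ← exp_add, ← exp_add, s]
    congr 2; push_cast; field_simp; ring
  rw [c, norm_mul, e, one_mul]
  refine Real.norm_exp_I_mul_ofReal_sub_one_le.trans ?_
  rwa [Real.norm_eq_abs, abs_mul, abs_of_pos (a := 2 ^ k ^ 2) (by positivity)]

end Pool.Agent.H.MP_e616d8_an
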