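import Pool.Agent.H.MP_e616d8_an.A

set_option autoImplicit false
open MeasureTheory Filter Topology Complex
open scoped InnerProductSpace

namespace Pool.Agent.H.MP_e616d8_an

theorem uni (z : ℂ) {t : ℝ} (ht : t ^ 2 = 1 - ‖z‖ ^ 2) : ‖z + t * I * exp (arg z * I)‖ = 1 := by
  nth_rewrite 1 [← norm_mul_exp_arg_mul_I z]
  rw [← add_mul, norm_mul, norm_exp_ofReal_mul_I, norm_add_mul_I, ht]; simp

theorem all {S : Set (WeakSpace ℂ E)} (hS : IsSeqClosed S)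
    (h : ∀ (c : ℂ) (u : E), (∀ᵐ ω ∂μ, ‖u ω‖ = 1) → toWeakSpace ℂ E (c • u) ∈ S) : S = Set.univ := by
  refine Set.eq_univ_of_forall fun y => (ContinuousMap.toLp_denseRange ℂ μ ℂ (p := 2) (by simp)).induction_on
    (p := fun y => toWeakSpace ℂ E y ∈ S) y
    (hS.preimage (toWeakSpaceCLM ℂ E).continuous.seqContinuous).isClosed fun g => ?_
  obtain ⟨r, hr, e⟩ := exr
  have C0 : (0 : ℝ) < ‖g‖ + 1 := by positivity
  let z (ω : Ω) : ℂ := ((‖g‖ + 1 : ℝ) : ℂ)⁻¹ * g ω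
  have z1 ω : 0 ≤ 1 - ‖z ω‖ ^ 2 := by
    have : ‖z ω‖ ≤ 1 := by
      rw [norm_mul, norm_inv, norm_real, Real.norm_of_nonneg C0.le, inv_mul_le_iff₀ C0]
      linarith [g.norm_coe_le_norm ω]
    nlinarith [norm_nonneg (z ω)]
  have mz : Measurable z := by have := g.continuous.measurable; fun_prop
  obtain ⟨M, hM⟩ := exM (g := fun ω => √(1 - ‖z ω‖ ^ 2) * I * exp (arg (z ω) * I)) (by fun_prop)
    (.of_forall fun ω => by
      simpa [abs_of_nonneg (Real.sqrt_nonneg _)] using Real.sqrt_le_one (sub_le_self _ (sq_nonneg _)))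
  refine hS (fun j => h (‖g‖ + 1 : ℝ) (((‖g‖ + 1 : ℝ) : ℂ)⁻¹ • ContinuousMap.toLp 2 μ ℂ g + M (r j)) ?_)
    (wk.2 fun φ => ?_)
  · filter_upwards [Lp.coeFn_add (((‖g‖ + 1 : ℝ) : ℂ)⁻¹ • ContinuousMap.toLp 2 μ ℂ g) (M (r j)),
      Lp.coeFn_smul ((‖g‖ + 1 : ℝ) : ℂ)⁻¹ (ContinuousMap.toLp 2 μ ℂ g), hM (r j), e j,
      ContinuousMap.coeFn_toLp (p := 2) (𝕜 := ℂ) μ g] with ω a b c d f
    rw [a, Pi.add_apply, b, c, Pi.smul_apply, f]
    rcases d with d | d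
    · simpa [d, z] using uni (z ω) (Real.sq_sqrt (z1 ω))
    · simpa [d, z] using uni (z ω) ((neg_sq _).trans (Real.sq_sqrt (z1 ω)))
  · have := ((wnull hr (φ.comp M)).const_mul ((‖g‖ + 1 : ℝ) : ℂ)).const_add (φ (ContinuousMap.toLp 2 μ ℂ g))
    simp only [smul_add, smul_inv_smul₀ (ofReal_ne_zero.2 C0.ne'), map_add, map_smul]
    simpa using this

theorem pw {h : Ω → ℂ} {T : E →L[ℂ] E} (hT : ∀ f, T f =ᵐ[μ] fun ω => h ω * f ω) (n : ℕ) (f : E) :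
    (T ^ n) f =ᵐ[μ] fun ω => h ω ^ n * f ω := by
  induction n with
  | zero => simp
  | succ n ih =>
    filter_upwards [ih, hT ((T ^ n) f)] with ω a b
    rw [pow_succ', mul_apply_eq_comp, b, a]; ring

theorem not1 (x : E) {O : Set E} (hO : ∀ s ∈ O, ∃ c : ℝ, 0 ≤ c ∧ ∀ᵐ ω ∂μ, ‖s ω‖ = c * ‖x ω‖) :
    seqClosure (toWeakSpace ℂ E '' O) ≠ Set.univ := fun h => by
  obtain ⟨e, he, e0⟩ := exe
  let X : E := (Lp.memLp x).norm.ofReal.toLp
  have hX : X =ᵐ[μ] _ := MemLp.coeFn_toLp _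
  have H (y : E) : ∃ (s : ℕ → E) (K : ℝ), (∀ k, s k ∈ O) ∧ (∀ k, ‖s k‖ ≤ K) ∧
      ∀ f, Tendsto (fun k => ⟪f, s k⟫_ℂ) atTop (𝓝 ⟪f, y⟫_ℂ) := by
    obtain ⟨s, hs, t⟩ := Set.eq_univ_iff_forall.1 h (toWeakSpace ℂ E y)
    choose s hs e using hs
    have t := fun f => wk.1 (t.congr fun k => (e k).symm) (innerSL ℂ f)
    obtain ⟨K, hK⟩ := banach_steinhaus (g := fun k => innerSL ℂ (s k)) fun f => by
      obtain ⟨C, hC⟩ := (t f).norm.bddAbove_range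
      exact ⟨C, fun k => (norm_inner_symm (𝕜 := ℂ) (s k) f).trans_le (hC ⟨k, rfl⟩)⟩
    exact ⟨s, K, hs, fun k => by simpa using hK k, t⟩
  have n (s) (hs : s ∈ O) : ∃ c : ℝ, ‖s‖ = c * ‖x‖ ∧ ∀ j, ‖⟪e j, s⟫_ℂ‖ ≤ c * ‖⟪X, e j⟫_ℂ‖ := by
    obtain ⟨c, c0, hc⟩ := hO s hs
    refine ⟨c, ?_, fun j => ?_⟩
    · rw [← Real.norm_of_nonneg c0, ← norm_smul, Lp.norm_def, Lp.norm_def]
      exact congrArg _ (eLpNorm_congr_norm_ae (by
        filter_upwards [hc, Lp.coeFn_smul c x] with ω a b; simp [a, b, abs_of_nonneg c0]))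
    · rw [L2.inner_def, L2.inner_def, integral_congr_ae (f := fun ω => ⟪X ω, e j ω⟫_ℂ)
        (g := fun ω => ((‖e j ω‖ * ‖x ω‖ : ℝ) : ℂ)) (by
          filter_upwards [hX, e0 j] with ω a b; rw [a, b]; simp), integral_complex_ofReal, norm_real]
      refine (norm_integral_le_integral_norm _).trans (le_trans (le_of_eq ?_)
        (mul_le_mul_of_nonneg_left (le_abs_self _) c0))
      rw [← integral_const_mul]
      exact integral_congr_ae (by filter_upwards [hc] with ω a; simp [a]; ring)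
  have p (j : ℕ) : 0 < ‖⟪X, e j⟫_ℂ‖ + 1 / (j + 1) := by positivity
  obtain ⟨C, hC⟩ := banach_steinhaus (g := fun j : ℕ =>
    ((‖x‖ / (‖⟪X, e j⟫_ℂ‖ + 1 / (j + 1)) : ℝ) : ℂ) • innerSL ℂ (e j)) fun y => by
      obtain ⟨s, K, hs, hK, t⟩ := H y
      refine ⟨K, fun j => ?_⟩
      rw [ContinuousLinearMap.smul_apply, norm_smul, norm_real, Real.norm_of_nonneg (by positivity),
        div_mul_eq_mul_div, div_le_iff₀ (p j)]
      refine le_of_tendsto' ((t (e j)).norm.const_mul ‖x‖) fun k => ?_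
      obtain ⟨c, a, b⟩ := n _ (hs k)
      have := hK k
      nlinarith [b j, norm_nonneg x, norm_nonneg ⟪X, e j⟫_ℂ, norm_nonneg (s k),
        mul_le_mul_of_nonneg_left (b j) (norm_nonneg x), show (0 : ℝ) < 1 / (j + 1) by positivity]
  have x0 : ‖x‖ ≤ 0 := ge_of_tendsto' (f := fun j : ℕ => C * (‖⟪X, e j⟫_ℂ‖ + 1 / (j + 1)))
    (by simpa using ((wnull he (innerSL ℂ X)).norm.add tendsto_one_div_add_atTop_nhds_zero_nat).const_mul C)
    fun j => by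
      have := hC j
      rwa [norm_smul, innerSL_apply_norm, he.1, mul_one, norm_real, Real.norm_of_nonneg (by positivity),
        div_le_iff₀ (p j)] at this
  obtain ⟨s, -, hs, -, t⟩ := H (e 0)
  have : ∀ k, s k = 0 := fun k => (n _ (hs k)).elim fun c a => by
    simpa [norm_le_zero_iff.1 x0] using a.1
  simpa [this, he.1] using t (e 0)

end Pool.Agent.H.MP_e616d8_an
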